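import Mathlib

set_option autoImplicit false

namespace Pool.Agent.Lib.H36B.BipartiteRay

/-- The point with abscissa `s` on the line of slope `X` and intercept `-Y`. -/
def pt (X Y s : ℝ) : ℝ × ℝ := (s, X * s - Y)

lemma segment_pt (X Y a b : ℝ) (h : a ≤ b) :
    segment ℝ (pt X Y a) (pt X Y b) = {q | ∃ s, a ≤ s ∧ s ≤ b ∧ q = pt X Y s} := by
  ext q
  constructor
  · rintro ⟨u, v, hu, hv, huv, rfl⟩
    refine ⟨u * a + v * b, ?_, ?_, ?_⟩
    · have hu' : u = 1 - v := by linarith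
      have := mul_nonneg hv (sub_nonneg.2 h)
      subst hu'
      linarith
    · have hv' : v = 1 - u := by linarith
      have := mul_nonneg hu (sub_nonneg.2 h)
      subst hv'
      linarith
    · ext
      · simp [pt]
      · simp only [pt, Prod.smul_mk, smul_eq_mul, Prod.mk_add_mk]
        have : u = 1 - v := by linarith
        subst this
        ring
  · rintro ⟨s, h1, h2, rfl⟩
    rcases eq_or_lt_of_le h with hab | hab
    · have hs : s = a := le_antisymm (hab ▸ h2) h1
      subst hs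
      subst hab
      exact left_mem_segment ℝ _ _
    · refine ⟨(b - s) / (b - a), (s - a) / (b - a), ?_, ?_, ?_, ?_⟩
      · apply div_nonneg <;> linarith
      · apply div_nonneg <;> linarith
      · have : b - a ≠ 0 := by linarith
        field_simp
        ring
      · have : b - a ≠ 0 := by linarith
        ext
        · simp only [pt, Prod.smul_mk, smul_eq_mul, Prod.mk_add_mk]
          field_simp
          ring
        · simp only [pt, Prod.smul_mk, smul_eq_mul, Prod.mk_add_mk]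
          field_simp
          ring

lemma inter_iff (X Y a b X' Y' a' b' : ℝ) (h : a ≤ b) (h' : a' ≤ b') (hX : X < X') :
    (segment ℝ (pt X Y a) (pt X Y b) ∩ segment ℝ (pt X' Y' a') (pt X' Y' b')).Nonempty ↔
      (a ≤ (Y' - Y) / (X' - X) ∧ (Y' - Y) / (X' - X) ≤ b) ∧
      (a' ≤ (Y' - Y) / (X' - X) ∧ (Y' - Y) / (X' - X) ≤ b') := by
  have hd : 0 < X' - X := by linarith
  rw [segment_pt X Y a b h, segment_pt X' Y' a' b' h']
  constructor
  · rintro ⟨q, ⟨s, h1, h2, rfl⟩, ⟨t, h3, h4, h5⟩⟩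
    simp only [pt, Prod.mk.injEq] at h5
    obtain ⟨rfl, h6⟩ := h5
    have hs : (Y' - Y) / (X' - X) = s := by
      rw [div_eq_iff hd.ne']
      linarith
    rw [hs]
    exact ⟨⟨h1, h2⟩, h3, h4⟩
  · rintro ⟨⟨h1, h2⟩, h3, h4⟩
    refine ⟨pt X Y ((Y' - Y) / (X' - X)), ⟨_, h1, h2, rfl⟩, ⟨_, h3, h4, ?_⟩⟩
    simp only [pt, Prod.mk.injEq, true_and]
    field_simp
    ring

/-- The base of the exponential scale. -/
noncomputable def m : ℝ := 1 / 4

lemma m_pos : 0 < m := by norm_num [m]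
lemma m_lt : m < 1 := by norm_num [m]

lemma pow_m_pos (k : ℕ) : 0 < m ^ k := pow_pos m_pos k

lemma pow_m_anti {a b : ℕ} (h : a ≤ b) : m ^ b ≤ m ^ a :=
  pow_le_pow_of_le_one m_pos.le m_lt.le h

lemma pow_m_succ {a b : ℕ} (h : a + 1 ≤ b) : m ^ b ≤ m ^ a / 4 := by
  have := pow_m_anti h
  rw [pow_succ] at this
  have h4 : m = 1 / 4 := rfl
  rw [h4] at this ⊢
  linarith

/-- The central inequality. -/
lemma key {Tu Tv Du Dv Lv : ℕ} (hT : Tu + 2 ≤ Tv) (hDv : Tv + 1 ≤ Dv)
    (hL : Lv ≤ Tv) :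
    ((Tv < Du ∧ Lv ≤ Tu) → m ^ (Tv - Lv + 1) * (m ^ Tu - m ^ Dv) < m ^ Tv - m ^ Du) ∧
    ((Du < Tv ∨ Tu + 2 ≤ Lv) → m ^ Tv - m ^ Du ≤ m ^ (Tv - Lv + 1) * (m ^ Tu - m ^ Dv)) := by
  have hβ : 0 < m ^ Tu - m ^ Dv := by
    have := pow_m_succ (show Tu + 1 ≤ Dv by omega)
    have := pow_m_pos Tu
    linarith
  constructor
  · rintro ⟨h1, h2⟩
    have e1 : m ^ Du ≤ m ^ Tv / 4 := pow_m_succ (by omega)
    have e2 : m ^ (Tv - Lv + 1) * m ^ Tu ≤ m ^ Tv / 4 := by
      rw [← pow_add]
      exact pow_m_succ (by omega)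
    have e3 : 0 < m ^ (Tv - Lv + 1) * m ^ Dv := mul_pos (pow_m_pos _) (pow_m_pos _)
    have := pow_m_pos Tv
    nlinarith
  · rintro (h | h)
    · have e1 : m ^ Tv ≤ m ^ Du / 4 := pow_m_succ (by omega)
      have := pow_m_pos Du
      have e2 : 0 < m ^ (Tv - Lv + 1) * (m ^ Tu - m ^ Dv) := mul_pos (pow_m_pos _) hβ
      linarith
    · have e1 : m ^ Dv ≤ m ^ Tu / 4 := pow_m_succ (by omega)
      have e2 : m ^ Tv ≤ m ^ (Tv - Lv + 1) * m ^ Tu / 4 := by
        rw [← pow_add]
        exact pow_m_succ (by omega)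
      have e3 := pow_m_pos Du
      have e4 := pow_m_pos (Tv - Lv + 1)
      have e5 : m ^ (Tv - Lv + 1) * m ^ Dv ≤ m ^ (Tv - Lv + 1) * (m ^ Tu / 4) :=
        mul_le_mul_of_nonneg_left e1 e4.le
      have e6 : 0 < m ^ (Tv - Lv + 1) * m ^ Tu := mul_pos e4 (pow_m_pos _)
      nlinarith

/-- Comparison of the crossing abscissa with the threshold of a later white vertex. -/
lemma lo_le_iff {α β ρ : ℝ} (hρ1 : ρ < 1) (hαβ : α < β) :
    -ρ / (1 - ρ) ≤ -α / (β - α) ↔ α ≤ ρ * β := by
  have h1 : 0 < 1 - ρ := by linarith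
  have h2 : 0 < β - α := by linarith
  rw [div_le_div_iff₀ h1 h2]
  constructor <;> intro h <;> nlinarith

/-- Comparison of the crossing abscissa with the threshold of a later black vertex. -/
lemma le_hi_iff {α β ρ : ℝ} (hρ1 : ρ < 1) (hαβ : α < β) :
    β / (β - α) ≤ 1 / (1 - ρ) ↔ α ≤ ρ * β := by
  have h1 : 0 < 1 - ρ := by linarith
  have h2 : 0 < β - α := by linarith
  rw [div_le_div_iff₀ h2 h1]
  constructor <;> intro h <;> nlinarith

/-- Let `G` be a finite bipartite graph (colour classes given by `col`) whose vertices are placed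
on a line (positions `pos`) in such a way that whenever `a < b < c < d`, the vertices `a, b` have
the same colour, `c, d` have the same colour, and `ac`, `bd` are edges, then `bc` is an edge.
Then the complement of `G` is the intersection graph of segments in the plane. -/
theorem result (V : Type) [Fintype V] (G : SimpleGraph V) (col : V → Bool) (pos : V → ℕ)
    (hpos : Function.Injective pos)
    (hcol : ∀ u v, G.Adj u v → col u ≠ col v)
    (hbook : ∀ a b c d, pos a < pos b → pos b < pos c → pos c < pos d →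
      col a = col b → col c = col d → G.Adj a c → G.Adj b d → G.Adj b c) :
    ∃ s : V → (ℝ × ℝ) × (ℝ × ℝ),
      (∀ v, (s v).1 ≠ (s v).2) ∧
      ∀ u v, u ≠ v →
        (Gᶜ.Adj u v ↔
          (segment ℝ (s u).1 (s u).2 ∩ segment ℝ (s v).1 (s v).2).Nonempty) := by
  classical
  have hl : ∀ v, ∃ l, l ≤ pos v ∧ (∀ w, G.Adj v w → pos w < pos v → l ≤ pos w) ∧
      (l = pos v ∨ ∃ w, G.Adj v w ∧ pos w = l ∧ pos w < pos v) := by
    intro v
    obtain ⟨w, hw, hmin⟩ := (insert v (Finset.univ.filter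
      (fun w => G.Adj v w ∧ pos w < pos v))).exists_min_image pos ⟨v, by simp⟩
    refine ⟨pos w, hmin v (by simp), fun x hx hx' => hmin x (by simp [hx, hx']), ?_⟩
    simp only [Finset.mem_insert, Finset.mem_filter, Finset.mem_univ, true_and] at hw
    rcases hw with rfl | hw
    · left; rfl
    · right; exact ⟨w, hw.1, rfl, hw.2⟩
  have hr : ∀ v, ∃ r, pos v ≤ r ∧ (∀ w, G.Adj v w → pos v < pos w → pos w ≤ r) ∧
      (r = pos v ∨ ∃ w, G.Adj v w ∧ pos w = r ∧ pos v < pos w) := by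
    intro v
    obtain ⟨w, hw, hmax⟩ := (insert v (Finset.univ.filter
      (fun w => G.Adj v w ∧ pos v < pos w))).exists_max_image pos ⟨v, by simp⟩
    refine ⟨pos w, hmax v (by simp), fun x hx hx' => hmax x (by simp [hx, hx']), ?_⟩
    simp only [Finset.mem_insert, Finset.mem_filter, Finset.mem_univ, true_and] at hw
    rcases hw with rfl | hw
    · left; rfl
    · right; exact ⟨w, hw.1, rfl, hw.2⟩
  choose l hl1 hl2 hl3 using hl
  choose r hr1 hr2 hr3 using hr
  -- births, deaths, thresholds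
  obtain ⟨T, hT⟩ : ∃ T : V → ℕ, ∀ v, T v = 2 * pos v := ⟨_, fun _ => rfl⟩
  obtain ⟨D, hD⟩ : ∃ D : V → ℕ, ∀ v, D v = 2 * r v + 1 := ⟨_, fun _ => rfl⟩
  obtain ⟨L, hL⟩ : ∃ L : V → ℕ, ∀ v, L v = 2 * l v := ⟨_, fun _ => rfl⟩
  have hTD : ∀ v, T v + 1 ≤ D v := fun v => by
    rw [hT, hD]; have := hr1 v; omega
  have hLT : ∀ v, L v ≤ T v := fun v => by
    rw [hT, hL]; have := hl1 v; omega
  have hadj : ∀ u v, pos u < pos v → G.Adj u v → T v < D u ∧ L v ≤ T u := by
    intro u v huv h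
    rw [hT, hD, hT, hL]
    have h1 := hr2 u v h huv
    have h2 := hl2 v u h.symm huv
    omega
  have hnadj : ∀ u v, pos u < pos v → col u ≠ col v → ¬ G.Adj u v →
      D u < T v ∨ T u + 2 ≤ L v := by
    intro u v huv hc h
    by_contra hcon
    push Not at hcon
    rw [hT, hD, hT, hL] at hcon
    obtain ⟨h1, h2⟩ := hcon
    have h1' : pos v ≤ r u := by omega
    have h2' : l v ≤ pos u := by omega
    rcases hr3 u with hru | ⟨w, hw1, hw2, hw3⟩
    · omega
    rcases hl3 v with hlv | ⟨z, hz1, hz2, hz3⟩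
    · omega
    apply h
    have hcw := hcol u w hw1
    have hcz := hcol v z hz1
    rcases eq_or_lt_of_le (show pos v ≤ pos w by omega) with h3 | h3
    · rw [hpos h3]; exact hw1
    rcases eq_or_lt_of_le (show pos z ≤ pos u by omega) with h4 | h4
    · rw [← hpos h4]; exact hz1.symm
    refine hbook z u v w h4 huv h3 ?_ ?_ hz1.symm hw1
    · revert hc hcz
      cases col u <;> cases col v <;> cases col z <;> simp
    · revert hc hcw
      cases col u <;> cases col v <;> cases col w <;> simp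
  obtain ⟨X, hX⟩ : ∃ X : V → ℝ, ∀ v, X v = -(m ^ T v + m ^ D v) := ⟨_, fun _ => rfl⟩
  obtain ⟨Y, hY⟩ : ∃ Y : V → ℝ, ∀ v, Y v = if col v = true then -m ^ T v else -m ^ D v :=
    ⟨_, fun _ => rfl⟩
  obtain ⟨ρ, hρ⟩ : ∃ ρ : V → ℝ, ∀ v, ρ v = m ^ (T v - L v + 1) := ⟨_, fun _ => rfl⟩
  have hρ0 : ∀ v, 0 < ρ v := fun v => by rw [hρ]; exact pow_m_pos _
  have hρ1 : ∀ v, ρ v < 1 := fun v => by
    rw [hρ]; exact pow_lt_one₀ m_pos.le m_lt (by omega)
  obtain ⟨K, hK2, hK⟩ : ∃ K : ℝ, 2 ≤ K ∧ ∀ u v, |(Y v - Y u) / (X v - X u)| ≤ K := by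
    refine ⟨2 + ∑ u, ∑ v, |(Y v - Y u) / (X v - X u)|, ?_, fun u v => ?_⟩
    · have : 0 ≤ ∑ u, ∑ v, |(Y v - Y u) / (X v - X u)| :=
        Finset.sum_nonneg fun u _ => Finset.sum_nonneg fun v _ => abs_nonneg _
      linarith
    · have h1 : |(Y v - Y u) / (X v - X u)| ≤ ∑ v, |(Y v - Y u) / (X v - X u)| :=
        Finset.single_le_sum (f := fun v => |(Y v - Y u) / (X v - X u)|)
          (fun v _ => abs_nonneg _) (Finset.mem_univ v)
      have h2 : ∑ v, |(Y v - Y u) / (X v - X u)| ≤ ∑ u, ∑ v, |(Y v - Y u) / (X v - X u)| :=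
        Finset.single_le_sum (f := fun u => ∑ v, |(Y v - Y u) / (X v - X u)|)
          (fun u _ => Finset.sum_nonneg fun v _ => abs_nonneg _) (Finset.mem_univ u)
      linarith
  obtain ⟨lo, hlo⟩ : ∃ lo : V → ℝ, ∀ v, lo v = if col v = true then -ρ v / (1 - ρ v) else -K :=
    ⟨_, fun _ => rfl⟩
  obtain ⟨hi, hhi⟩ : ∃ hi : V → ℝ, ∀ v, hi v = if col v = true then K else 1 / (1 - ρ v) :=
    ⟨_, fun _ => rfl⟩
  have hlow : ∀ v, -ρ v / (1 - ρ v) ≤ 0 := fun v => by
    apply div_nonpos_of_nonpos_of_nonneg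
    · linarith [hρ0 v]
    · linarith [hρ1 v]
  have hhib : ∀ v, 1 ≤ 1 / (1 - ρ v) := fun v => by
    rw [le_div_iff₀ (by linarith [hρ1 v])]
    linarith [hρ0 v]
  have hlohi : ∀ v, lo v < hi v := by
    intro v
    rw [hlo, hhi]
    have h1 := hlow v
    have h2 := hhib v
    split_ifs <;> linarith
  have core : ∀ u v, pos u < pos v → (¬ G.Adj u v ↔
      (lo u ≤ (Y v - Y u) / (X v - X u) ∧ (Y v - Y u) / (X v - X u) ≤ hi u) ∧
      (lo v ≤ (Y v - Y u) / (X v - X u) ∧ (Y v - Y u) / (X v - X u) ≤ hi v)) := by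
    intro u v huv
    have hT2 : T u + 2 ≤ T v := by rw [hT, hT]; omega
    obtain ⟨hk1, hk2⟩ := key hT2 (hTD v) (hLT v) (Du := D u)
    rw [← hρ] at hk1 hk2
    have hKuv := abs_le.1 (hK u v)
    have e1 : m ^ T v ≤ m ^ T u / 4 := pow_m_succ (by omega)
    have e2 : m ^ D v ≤ m ^ T v / 4 := pow_m_succ (hTD v)
    have p1 := pow_m_pos (T u)
    have p2 := pow_m_pos (D u)
    have p3 := pow_m_pos (T v)
    have p4 := pow_m_pos (D v)
    have hXX : X v - X u = (m ^ T u - m ^ D v) - (m ^ T v - m ^ D u) := by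
      rw [hX, hX]; ring
    have hXpos : 0 < X v - X u := by rw [hXX]; linarith
    have hαβ : m ^ T v - m ^ D u < m ^ T u - m ^ D v := by linarith
    cases hcu : col u <;> cases hcv : col v
    · -- black, black
      have hn : ¬ G.Adj u v := fun h => hcol u v h (by rw [hcu, hcv])
      have hYY : Y v - Y u = m ^ D u - m ^ D v := by
        rw [hY, hY, hcu, hcv]; simp only [Bool.false_eq_true, if_false]; ring
      have hS : (Y v - Y u) / (X v - X u) ≤ 1 := by
        rw [div_le_one hXpos, hXX, hYY]; linarith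
      rw [hlo, hlo, hhi, hhi, hcu, hcv]
      simp only [Bool.false_eq_true, if_false]
      have h1 := hhib u
      have h2 := hhib v
      exact ⟨fun _ => ⟨⟨by linarith [hKuv.1], by linarith⟩, by linarith [hKuv.1], by linarith⟩,
        fun _ => hn⟩
    · -- black, white
      have hYY : Y v - Y u = -(m ^ T v - m ^ D u) := by
        rw [hY, hY, hcu, hcv]; simp only [Bool.false_eq_true, if_false, if_true]; ring
      have hS : (Y v - Y u) / (X v - X u) ≤ 1 := by
        rw [div_le_one hXpos, hXX, hYY]; linarith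
      have hlo' : -ρ v / (1 - ρ v) ≤ (Y v - Y u) / (X v - X u) ↔
          m ^ T v - m ^ D u ≤ ρ v * (m ^ T u - m ^ D v) := by
        rw [hXX, hYY]; exact lo_le_iff (hρ1 v) hαβ
      rw [hlo, hlo, hhi, hhi, hcu, hcv]
      simp only [Bool.false_eq_true, if_false, if_true]
      rw [hlo']
      have h1 := hhib u
      constructor
      · intro hn
        have := hk2 (hnadj u v huv (by rw [hcu, hcv]; simp) hn)
        exact ⟨⟨by linarith [hKuv.1], by linarith⟩, this, by linarith [hKuv.2]⟩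
      · rintro ⟨_, h2, _⟩ had
        have := hk1 (hadj u v huv had)
        linarith
    · -- white, black
      have hYY : Y v - Y u = m ^ T u - m ^ D v := by
        rw [hY, hY, hcu, hcv]; simp only [Bool.false_eq_true, if_false, if_true]; ring
      have hS : 0 ≤ (Y v - Y u) / (X v - X u) := by
        apply div_nonneg _ hXpos.le
        rw [hYY]; linarith
      have hhi' : (Y v - Y u) / (X v - X u) ≤ 1 / (1 - ρ v) ↔
          m ^ T v - m ^ D u ≤ ρ v * (m ^ T u - m ^ D v) := by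
        rw [hXX, hYY]; exact le_hi_iff (hρ1 v) hαβ
      rw [hlo, hlo, hhi, hhi, hcu, hcv]
      simp only [Bool.false_eq_true, if_false, if_true]
      rw [hhi']
      have h1 := hlow u
      constructor
      · intro hn
        have := hk2 (hnadj u v huv (by rw [hcu, hcv]; simp) hn)
        exact ⟨⟨by linarith, by linarith [hKuv.2]⟩, by linarith [hKuv.1], this⟩
      · rintro ⟨_, _, h2⟩ had
        have := hk1 (hadj u v huv had)
        linarith
    · -- white, white
      have hn : ¬ G.Adj u v := fun h => hcol u v h (by rw [hcu, hcv])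
      have hYY : Y v - Y u = m ^ T u - m ^ T v := by
        rw [hY, hY, hcu, hcv]; simp only [if_true]; ring
      have hS : 0 ≤ (Y v - Y u) / (X v - X u) := by
        apply div_nonneg _ hXpos.le
        rw [hYY]; linarith
      rw [hlo, hlo, hhi, hhi, hcu, hcv]
      simp only [if_true]
      have h1 := hlow u
      have h2 := hlow v
      exact ⟨fun _ => ⟨⟨by linarith, by linarith [hKuv.2]⟩, by linarith, by linarith [hKuv.2]⟩,
        fun _ => hn⟩
  have hXlt : ∀ u v, pos u < pos v → X u < X v := by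
    intro u v huv
    have hT2 : T u + 2 ≤ T v := by rw [hT, hT]; omega
    have e1 : m ^ T v ≤ m ^ T u / 4 := pow_m_succ (by omega)
    have e2 : m ^ D v ≤ m ^ T v / 4 := pow_m_succ (hTD v)
    have p1 := pow_m_pos (T u)
    have p2 := pow_m_pos (D u)
    have p3 := pow_m_pos (T v)
    rw [hX, hX]
    linarith
  refine ⟨fun v => (pt (X v) (Y v) (lo v), pt (X v) (Y v) (hi v)), fun v h => ?_, ?_⟩
  · have h1 : lo v = hi v := congrArg Prod.fst h
    exact absurd h1 (hlohi v).ne
  · have main : ∀ u v, pos u < pos v → (¬ G.Adj u v ↔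
        (segment ℝ (pt (X u) (Y u) (lo u)) (pt (X u) (Y u) (hi u)) ∩
          segment ℝ (pt (X v) (Y v) (lo v)) (pt (X v) (Y v) (hi v))).Nonempty) := by
      intro u v huv
      rw [inter_iff _ _ _ _ _ _ _ _ (hlohi u).le (hlohi v).le (hXlt u v huv)]
      exact core u v huv
    intro u v huv
    rw [SimpleGraph.compl_adj]
    rcases lt_or_gt_of_ne (fun h => huv (hpos h)) with h | h
    · rw [← main u v h]
      exact ⟨fun h => h.2, fun h => ⟨huv, h⟩⟩
    · rw [Set.inter_comm, ← main v u h, G.adj_comm]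
      exact ⟨fun h => h.2, fun h => ⟨huv, h⟩⟩

end Pool.Agent.Lib.H36B.BipartiteRay
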